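import Pool.Agent.H20.RCC.Stmts

/-!
Row MID (MP_a315fd_nt): column sums of the middle part.
-/

set_option autoImplicit false

namespace Pool.RCC

theorem MID_thm : MIDStmt := by
  intro k u w
  constructor
  · have h1 : List.replicate (u + w) k = List.replicate w k ++ List.replicate u k := by
      rw [List.replicate_append_replicate, Nat.add_comm]
    have h2 : List.replicate (u + w) k = List.replicate u k ++ List.replicate w k := by
      rw [List.replicate_append_replicate]
    have h3 : List.zipWith (· + ·) (List.replicate u (k + 1) ++ List.replicate (u + w) k)
        (List.replicate (u + w) k ++ List.replicate u (k + 1)) =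
        List.zipWith (· + ·) (List.replicate u (k + 1) ++ (List.replicate w k ++
          List.replicate u k)) (List.replicate u k ++ (List.replicate w k ++
          List.replicate u (k + 1))) := by
      rw [← h1, ← List.append_assoc (List.replicate u k), ← h2]
    rw [h3, List.zipWith_append (by simp), List.zipWith_append (by simp)]
    simp only [List.zipWith_replicate, Nat.min_self]
    have e1 : k + 1 + k = 2 * k + 1 := by omega
    have e2 : k + k = 2 * k := by omega
    have e3 : k + (k + 1) = 2 * k + 1 := by omega
    rw [e1, e2, e3]
  · have h1 : List.replicate (u + w) (k + 1) =
        List.replicate w (k + 1) ++ List.replicate u (k + 1) := by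
      rw [List.replicate_append_replicate, Nat.add_comm]
    have h2 : List.replicate (u + w) (k + 1) =
        List.replicate u (k + 1) ++ List.replicate w (k + 1) := by
      rw [List.replicate_append_replicate]
    have h3 : List.zipWith (· + ·) (List.replicate (u + w) (k + 1) ++ List.replicate u k)
        (List.replicate u k ++ List.replicate (u + w) (k + 1)) =
        List.zipWith (· + ·) (List.replicate u (k + 1) ++ (List.replicate w (k + 1) ++
          List.replicate u k)) (List.replicate u k ++ (List.replicate w (k + 1) ++
          List.replicate u (k + 1))) := by
      rw [← h1, ← List.append_assoc (List.replicate u (k + 1)), ← h2]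
    rw [h3, List.zipWith_append (by simp), List.zipWith_append (by simp)]
    simp only [List.zipWith_replicate, Nat.min_self]
    have e1 : k + 1 + k = 2 * k + 1 := by omega
    have e2 : k + 1 + (k + 1) = 2 * k + 2 := by omega
    have e3 : k + (k + 1) = 2 * k + 1 := by omega
    rw [e1, e2, e3]

end Pool.RCC
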